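import Pool.Agent.Y560.TQ.Defs

set_option autoImplicit false

/-!
Geometry of median trees: medians are unique, Helly property, betweenness from a generating set,
medians of medians (job TQ-GEO of project TQ).
-/

namespace Pool.Agent.Y794.TQ.Geo

open Pool.Agent.Y560.TQ

variable {M : Type} {I : M → M → M → Prop}

theorem rr (h : Mtr I) (a c : M) : I a c c := h.symm _ _ _ (h.left c a)

theorem tr (h : Mtr I) {a b c d : M} (h1 : I a b c) (h2 : I a d b) : I a d c := by
  rcases h.tree a c b d h2 with h3 | h3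
  · exact h3
  · rcases h.tree a d c b h1 with h4 | h4
    · rw [h.anti _ _ _ h2 h4]
      exact h1
    · rw [h.anti _ _ _ h3 (h.symm _ _ _ h4)]
      exact h1

theorem tr2 (h : Mtr I) {a b c d : M} (h1 : I a b c) (h2 : I a d b) : I d b c := by
  rcases h.tree a d c b h1 with h4 | h4
  · rw [h.anti _ _ _ h2 h4]
    exact h.left _ _
  · exact h4

theorem cmp (h : Mtr I) {p a b c : M} (h1 : I p a c) (h2 : I p b c) : I p a b ∨ I p b a := by
  rcases h.tree p b c a h1 with h3 | h3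
  · exact Or.inl h3
  · rcases h.tree p a c b h2 with h4 | h4
    · exact Or.inr h4
    · rw [h.anti _ _ _ (h.symm _ _ _ h3) (h.symm _ _ _ h4)]
      exact Or.inl (rr h _ _)

/-- meets are greatest lower bounds -/
theorem glb (h : Mtr I) {p a b m z : M} (h1 : I a m b) (h2 : I p z a) (h3 : I p z b) :
    I p z m := by
  have key : ∀ c, I c m z → I p z c → I p z m := by
    intro c h4 h5
    rcases h.tree p m c z h5 with h6 | h6
    · exact h6
    · rw [h.anti _ _ _ h4 (h.symm _ _ _ h6)]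
      exact rr h _ _
  rcases h.tree a z b m h1 with h4 | h4
  · exact key a h4 h2
  · exact key b (h.symm _ _ _ h4) h3

/-- Paths are convex. -/
theorem conv (h : Mtr I) {p q u v w : M} (h1 : I p u q) (h2 : I p w q) (h3 : I u v w) :
    I p v q := by
  rcases cmp h h1 h2 with h4 | h4
  · exact tr h h2 (h.symm _ _ _ (tr h (h.symm _ _ _ h4) (h.symm _ _ _ h3)))
  · exact tr h h1 (h.symm _ _ _ (tr h (h.symm _ _ _ h4) h3))

/-- Concatenation of paths. -/
theorem cat (h : Mtr I) {a u m v : M} (h1 : I a u m) (h2 : I u m v) (hne : u ≠ m) : I a m v := by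
  rcases h.tree u a v m h2 with h3 | h3
  · exact absurd (h.anti _ _ _ h1 (h.symm _ _ _ h3)) hne
  · exact h3

theorem two (h : Mtr I) {a b u g : M} (h1 : I a u b) (h2 : I u g a) (h3 : I u g b) : g = u :=
  h.anti u g u (glb h h1 h2 h3) (h.left _ _)

/-- One of the three directions is good for two points. -/
theorem good (h : Mtr I) {P : M → Prop} {u : M} (hu : ∃ a b c, P a ∧ P b ∧ P c ∧ md I a b c u)
    (z z' : M) : ∃ p, P p ∧ I p u z ∧ I p u z' := by
  obtain ⟨a, b, c, ha, hb, hc, h1, h2, h3⟩ := hu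
  have key : ∀ z, (I a u z ∧ I b u z) ∨ (I a u z ∧ I c u z) ∨ (I b u z ∧ I c u z) := by
    intro z
    have k1 := h.tree a z b u h1
    have k2 := h.tree b z c u h2
    have k3 := h.tree a z c u h3
    have s : ∀ x, I z u x → I x u z := fun x => h.symm _ _ _
    rcases k1 with k1 | k1
    · rcases k2 with k2 | k2
      · exact Or.inl ⟨k1, k2⟩
      · exact Or.inr (Or.inl ⟨k1, s _ k2⟩)
    · rcases k3 with k3 | k3
      · exact Or.inl ⟨k3, s _ k1⟩
      · exact Or.inr (Or.inr ⟨s _ k1, s _ k3⟩)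
  rcases key z with ⟨k1, k2⟩ | ⟨k1, k2⟩ | ⟨k1, k2⟩ <;>
  rcases key z' with ⟨l1, l2⟩ | ⟨l1, l2⟩ | ⟨l1, l2⟩
  · exact ⟨a, ha, k1, l1⟩
  · exact ⟨a, ha, k1, l1⟩
  · exact ⟨b, hb, k2, l1⟩
  · exact ⟨a, ha, k1, l1⟩
  · exact ⟨a, ha, k1, l1⟩
  · exact ⟨c, hc, k2, l2⟩
  · exact ⟨b, hb, k1, l2⟩
  · exact ⟨c, hc, k2, l2⟩
  · exact ⟨b, hb, k1, l1⟩

theorem t_GEO : S_GEO := by
  intro M I h
  have uniq : ∀ a b c u v, md I a b c u → md I a b c v → u = v := by
    intro a b c u v hu hv
    exact h.anti a u v (glb h hv.2.1 hu.1 hu.2.2) (glb h hu.2.1 hv.1 hv.2.2)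
  refine ⟨uniq, ?_, ?_, ?_⟩
  · rintro a b c u p q ⟨h1, h2, h3⟩
    constructor
    · intro h4
      exact ⟨⟨u, h4, h1⟩, ⟨u, h4, h2⟩, ⟨u, h4, h3⟩⟩
    · rintro ⟨⟨m1, k1, l1⟩, ⟨m2, k2, l2⟩, ⟨m3, k3, l3⟩⟩
      by_contra hcon
      obtain ⟨g, g1, g2, g3⟩ := h.med p q u
      have hg : g ≠ u := fun e => hcon (e ▸ g1)
      have gate : ∀ m, I p m q → I u g m := fun m hm =>
        glb h hm (h.symm _ _ _ g3) (h.symm _ _ _ g2)
      have key : ∀ x y m, I p m q → I x m y → I u g x ∨ I u g y := by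
        intro x y m hm hxy
        rcases h.tree x u y m hxy with h5 | h5
        · exact Or.inl (tr h (h.symm _ _ _ h5) (gate m hm))
        · exact Or.inr (tr h h5 (gate m hm))
      rcases key a b m1 k1 l1 with e1 | e1
      · rcases key b c m2 k2 l2 with e2 | e2
        · exact hg (two h h1 e1 e2)
        · exact hg (two h h3 e1 e2)
      · rcases key a c m3 k3 l3 with e2 | e2
        · exact hg (two h h1 e2 e1)
        · exact hg (two h h2 e1 e2)
  · intro P hP u v w
    constructor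
    · intro h1 p q _ _ h2 h3
      exact conv h h2 h3 h1
    · intro H
      by_cases huw : u = w
      · subst huw
        obtain ⟨a, b, c, ha, hb, hc, h1⟩ := hP u
        have h2 : md I a b c v := ⟨H a b ha hb h1.1 h1.1, H b c hb hc h1.2.1 h1.2.1,
          H a c ha hc h1.2.2 h1.2.2⟩
        rw [uniq a b c v u h2 h1]
        exact h.left _ _
      · obtain ⟨p, hp, p1, p2⟩ := good h (hP u) w v
        obtain ⟨q, hq, q1, q2⟩ := good h (hP w) u v
        have h1 : I p w q := cat h p1 (h.symm _ _ _ q1) huw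
        have h2 : I q u p := cat h q1 (h.symm _ _ _ p1) (Ne.symm huw)
        have h3 := H p q hp hq (h.symm _ _ _ h2) h1
        have h4 := tr2 h h3 p2
        exact h.symm _ _ _ (tr2 h (h.symm _ _ _ h4) q2)
  · intro P u v w m hu hv hw hm
    by_cases e1 : u = m
    · exact e1 ▸ hu
    by_cases e2 : v = m
    · exact e2 ▸ hv
    by_cases e3 : w = m
    · exact e3 ▸ hw
    obtain ⟨m1, m2, m3⟩ := hm
    obtain ⟨a, ha, a1, _⟩ := good h hu m m
    obtain ⟨b, hb, b1, _⟩ := good h hv m m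
    obtain ⟨c, hc, c1, _⟩ := good h hw m m
    have k1 : I a m v := cat h a1 m1 e1
    have k2 : I a m w := cat h a1 m3 e1
    have k3 : I b m a := cat h b1 (h.symm _ _ _ k1) e2
    have k4 : I b m w := cat h b1 m2 e2
    have k5 : I c m a := cat h c1 (h.symm _ _ _ k2) e3
    have k6 : I c m b := cat h c1 (h.symm _ _ _ k4) e3
    exact ⟨a, b, c, ha, hb, hc, h.symm _ _ _ k3, h.symm _ _ _ k6, h.symm _ _ _ k5⟩

end Pool.Agent.Y794.TQ.Geo
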